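import Pool.Agent.H91.Pyr.Base

/-!
# MP_6d8c3e_nt: pyramids whose hub is a prime power have a large rim vertex

`Wheel h v`: the hub `h` is adjacent to the four distinct rim vertices `v 0, v 1, v 2, v 3`, and
`v i` to `v (i + 1)` (indices mod `4`).  The chords may be present or missing, so the theorem
applies to every pyramid.  The proof is in `Pool/Agent/H91/Pyr/Base.lean`.
-/

open Pool.Agent.H91.Pyr

namespace Pool.Agent.Results.MP_6d8c3e_nt.HubBound

/-- If `h ≥ 5` and `1` has only the square roots `±1` modulo `h` (for instance if `h` is a power of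
an odd prime or twice such a power) then every Diophantine wheel with hub `h` has a rim vertex which
is at least `(2 h ^ 2 - 6 h + 3) (2 h ^ 3 - 6 h ^ 2 + 3 h - 2)`, about `4 h ^ 5`. -/
theorem result (h : ℕ) (v : Fin 4 → ℕ) (W : Wheel h v) (hh : 5 ≤ h)
    (hr : ∀ x : ZMod h, x ^ 2 = 1 → x = 1 ∨ x = -1) :
    ∃ i, (2 * (h : ℤ) ^ 2 - 6 * h + 3) * (2 * (h : ℤ) ^ 3 - 6 * h ^ 2 + 3 * h - 2) ≤ v i :=
  hub_bound W hh hr

end Pool.Agent.Results.MP_6d8c3e_nt.HubBound
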