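import Mathlib
import Pool.Agent.H99.Pyr.Diamond

/-!
# MP_6d8c3e_nt: the largest vertex of a Diophantine pyramid

A gap principle: if the hub `h` of a pyramid is its largest vertex, then every rim vertex `v` has a
rim neighbour `w` with `36 w² v³ < h`.  If the largest vertex `M` is on the rim, then `16 h³ < M`,
or the second largest vertex `w` is a rim neighbour of `M` with `M = h + w + 2 √(h w + 1)` and
`4 h M < w²`.
-/

namespace Pool.Agent.Results.MP_6d8c3e_nt.LargestVertex

open Pool.Agent.H99.Pyr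

/-- `h` and `v 0, v 1, v 2, v 3` represent the pyramid graph: they are distinct positive integers,
`h v_i + 1` is a square for each `i`, `v_i v_(i+1) + 1` is a square for each `i` (cyclically), and
`v_0 v_2 + 1` and `v_1 v_3 + 1` are not squares. -/
structure IsPyramid (h : ℕ) (v : Fin 4 → ℕ) : Prop where
  hub_pos : 0 < h
  rim_pos : ∀ i, 0 < v i
  hub_ne : ∀ i, v i ≠ h
  injective : Function.Injective v
  hub_adj : ∀ i, IsSquare (h * v i + 1)
  rim_adj : ∀ i, IsSquare (v i * v (i + 1) + 1)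
  not_adj : ∀ i, ¬ IsSquare (v i * v (i + 2) + 1)

theorem cast_sq {n : ℕ} {z : ℤ} (h : IsSquare n) (hz : (n : ℤ) = z) : IsSquare z := by
  obtain ⟨r, hr⟩ := h
  exact ⟨r, by rw [← hz, hr]; push_cast; ring⟩

theorem cast_not_sq {n : ℕ} {z : ℤ} (h : ¬ IsSquare n) (hz : (n : ℤ) = z) : ¬ IsSquare z := by
  rintro ⟨r, hr⟩
  apply h
  refine ⟨r.natAbs, ?_⟩
  have : (n : ℤ) = ((r.natAbs * r.natAbs : ℕ) : ℤ) := by
    rw [hz, hr]
    push_cast
    exact (abs_mul_abs_self r).symm
  exact_mod_cast this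

variable {h : ℕ} {v : Fin 4 → ℕ}

theorem sub_one_eq (i : Fin 4) : i - 1 = i + 1 + 2 := by
  revert i; decide

theorem add_one_ne (i : Fin 4) : i + 1 ≠ i - 1 := by
  revert i; decide

theorem add_one_ne_self (i : Fin 4) : i + 1 ≠ i := by
  revert i; decide

theorem sub_one_ne_self (i : Fin 4) : i - 1 ≠ i := by
  revert i; decide

theorem cases_fin (i j l k : Fin 4) (hj : j = i + 1 ∧ l = i - 1 ∨ j = i - 1 ∧ l = i + 1)
    (hk : k ≠ i) : k = j ∨ k = l ∨ k = i + 2 := by
  revert i j l k; decide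

theorem root (x : ℤ) (h : IsSquare x) : ∃ r : ℤ, 0 ≤ r ∧ r ^ 2 = x := by
  obtain ⟨r, rfl⟩ := h
  exact ⟨|r|, abs_nonneg r, by rw [sq_abs]; ring⟩

/-- the rim neighbours of `v i` are not adjacent -/
theorem IsPyramid.not_adj' (P : IsPyramid h v) (i : Fin 4) :
    ¬ IsSquare ((v (i + 1) : ℤ) * v (i - 1) + 1) := by
  rw [sub_one_eq]
  exact cast_not_sq (P.not_adj (i + 1)) (by push_cast; ring)

theorem IsPyramid.rim_next (P : IsPyramid h v) (i : Fin 4) :
    IsSquare ((v i : ℤ) * v (i + 1) + 1) :=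
  cast_sq (P.rim_adj i) (by push_cast; ring)

theorem IsPyramid.rim_prev (P : IsPyramid h v) (i : Fin 4) :
    IsSquare ((v i : ℤ) * v (i - 1) + 1) := by
  have h1 := P.rim_adj (i - 1)
  rw [sub_add_cancel] at h1
  exact cast_sq h1 (by push_cast; ring)

theorem add_two_sub (i : Fin 4) : i + 2 - 1 = i + 1 := by
  revert i; decide

theorem add_two_add (i : Fin 4) : i + 2 + 1 = i - 1 := by
  revert i; decide

theorem IsPyramid.opp_next (P : IsPyramid h v) (i : Fin 4) :
    IsSquare ((v (i + 2) : ℤ) * v (i + 1) + 1) := by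
  have := P.rim_prev (i + 2)
  rwa [add_two_sub] at this

theorem IsPyramid.opp_prev (P : IsPyramid h v) (i : Fin 4) :
    IsSquare ((v (i + 2) : ℤ) * v (i - 1) + 1) := by
  have := P.rim_next (i + 2)
  rwa [add_two_add] at this

theorem IsPyramid.hub (P : IsPyramid h v) (i : Fin 4) : IsSquare ((h : ℤ) * v i + 1) :=
  cast_sq (P.hub_adj i) (by push_cast; ring)

theorem IsPyramid.hub' (P : IsPyramid h v) (i : Fin 4) : IsSquare ((v i : ℤ) * h + 1) :=
  cast_sq (P.hub_adj i) (by push_cast; ring)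

theorem IsPyramid.pos (P : IsPyramid h v) (i : Fin 4) : (0 : ℤ) < v i := by
  exact_mod_cast P.rim_pos i

/-- the hub is the largest vertex, and the tips are small -/
theorem hub_case (P : IsPyramid h v) (hmax : ∀ i, v i < h) (i : Fin 4)
    (hsmall : ∀ s : ℤ, 0 < s → s ^ 2 = (h : ℤ) * v i + 1 →
      2 * (v (i + 1) : ℤ) ≤ s ∧ 2 * (v (i - 1) : ℤ) ≤ s ∨
      ((v (i + 1) : ℤ) < v i ∧ (v (i - 1) : ℤ) < v i)) :
    ∃ j, (j = i + 1 ∨ j = i - 1) ∧ 36 * v j ^ 2 * v i ^ 3 < h := by
  have hM : (0 : ℤ) < h := by exact_mod_cast P.hub_pos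
  have lt : ∀ k, (v k : ℤ) < h := fun k => by exact_mod_cast hmax k
  have hne : (v (i + 1) : ℤ) ≠ v (i - 1) := by
    intro he
    exact add_one_ne i (P.injective (by exact_mod_cast he))
  obtain ⟨s, hs0, hs, hd⟩ := diamond (P.pos i) (P.pos (i + 1)) (P.pos (i - 1)) (lt i) (lt _) (lt _)
    hne (P.hub i) (P.hub (i + 1)) (P.rim_next i) (P.hub (i - 1)) (P.rim_prev i) (P.not_adj' i)
  have hNs : (v i : ℤ) < s := by
    nlinarith [mul_pos (P.pos i) (P.pos i), lt i, mul_pos (P.pos i) (sub_pos.2 (lt i))]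
  -- the common argument for the two neighbours
  have key : ∀ a b : ℤ, 0 < a → 0 < b → (2 * a ≤ s ∨ a < v i) →
      (∃ e : ℤ, 2 * s + b ≤ a + e ∧ 0 ≤ e ∧
      (e = 0 → ∃ q : ℤ, 0 ≤ q ∧ q ^ 2 = (v i : ℤ) * a + 1 ∧ (h : ℤ) = v i + a + 2 * q) ∧
      (0 < e → 4 * (v i : ℤ) * a * e < h)) → 36 * a ^ 2 * (v i : ℤ) ^ 3 < h := by
    rintro a b ha hb hsm ⟨e, h2', he0, -, hbig⟩
    have h2 : 2 * s < a + e := by omega
    have hepos : 0 < e := by
      rcases hsm with h3 | h3 <;> omega
    have h4 := hbig hepos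
    have hi := P.pos i
    refine small_tip hi ha hM hs0 hs h2 ?_ h4
    rcases hsm with h3 | h3
    · exact h3
    · -- here `4 v_i < h`, hence `2 v_i < s`
      have h5 : 4 * (v i : ℤ) < h := by
        have h6 : 1 ≤ a * e := by nlinarith
        have h7 : 4 * (v i : ℤ) * a * e = 4 * v i * (a * e) := by ring
        nlinarith
      have h8 : (2 * (v i : ℤ)) ^ 2 < s ^ 2 := by
        rw [hs]
        nlinarith
      have h9 : 2 * (v i : ℤ) < s := lt_of_pow_lt_pow_left₀ 2 hs0.le h8
      omega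
  have hsm := hsmall s hs0 hs
  rcases hd with hd | hd
  · refine ⟨i + 1, Or.inl rfl, ?_⟩
    have h1 := key _ _ (P.pos (i + 1)) (P.pos (i - 1)) (hsm.imp (fun h => h.1) (fun h => h.1)) hd
    exact_mod_cast h1
  · refine ⟨i - 1, Or.inr rfl, ?_⟩
    have h1 := key _ _ (P.pos (i - 1)) (P.pos (i + 1)) (hsm.imp (fun h => h.2) (fun h => h.2)) hd
    exact_mod_cast h1

/-- **The largest vertex of a Diophantine pyramid.** -/
theorem result (h : ℕ) (v : Fin 4 → ℕ) (P : IsPyramid h v) :
    ((∀ i, v i < h) → ∀ i, ∃ j, (j = i + 1 ∨ j = i - 1) ∧ 36 * v j ^ 2 * v i ^ 3 < h) ∧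
    ∀ i, h < v i → (∀ k, v k ≤ v i) →
      16 * h ^ 3 < v i ∨
      ∃ j, (j = i + 1 ∨ j = i - 1) ∧ (∃ q, q ^ 2 = h * v j + 1 ∧ v i = h + v j + 2 * q) ∧
        4 * (h * v i) < v j ^ 2 ∧ ∀ k, k ≠ i → v k ≤ v j := by
  constructor
  · intro hmax i
    obtain ⟨k, hk⟩ : ∃ k, ∀ j, v j ≤ v k := Finite.exists_max v
    -- the largest rim vertex
    obtain ⟨j, hj, hj2⟩ := hub_case P hmax k (by
      intro s _ _
      right
      have ne1 : v (k + 1) ≠ v k := fun he => add_one_ne_self k (P.injective he)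
      have ne2 : v (k - 1) ≠ v k := fun he => sub_one_ne_self k (P.injective he)
      have l1 := hk (k + 1)
      have l2 := hk (k - 1)
      constructor
      · exact_mod_cast lt_of_le_of_ne l1 ne1
      · exact_mod_cast lt_of_le_of_ne l2 ne2)
    have hcube : 36 * v k ^ 3 < h := by
      have h1 : 1 ≤ v j ^ 2 := Nat.one_le_pow _ _ (P.rim_pos j)
      calc 36 * v k ^ 3 = 36 * 1 * v k ^ 3 := by ring
        _ ≤ 36 * v j ^ 2 * v k ^ 3 := by gcongr
        _ < h := hj2
    refine hub_case P hmax i ?_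
    intro s hs0 hs
    left
    have small : ∀ l : Fin 4, 2 * (v l : ℤ) ≤ s := by
      intro l
      have h1 : (v l : ℤ) ≤ v k := by exact_mod_cast hk l
      have h2 : 36 * (v k : ℤ) ^ 3 < h := by exact_mod_cast hcube
      have h3 := P.pos l
      have h4 := P.pos k
      have h5 := P.pos i
      have h6 : 4 * (v k : ℤ) ^ 2 < h := by nlinarith [pow_pos h4 2]
      have h7 : (2 * (v l : ℤ)) ^ 2 < s ^ 2 := by
        rw [hs]
        have h8 : (v l : ℤ) ^ 2 ≤ (v k : ℤ) ^ 2 := by gcongr
        nlinarith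
      exact (lt_of_pow_lt_pow_left₀ 2 hs0.le h7).le
    exact ⟨small _, small _⟩
  · intro i hi hk
    have hM : (0 : ℤ) < v i := P.pos i
    have hN : (0 : ℤ) < h := by exact_mod_cast P.hub_pos
    have hne : (v (i + 1) : ℤ) ≠ v (i - 1) := by
      intro he
      exact add_one_ne i (P.injective (by exact_mod_cast he))
    have lt1 : (v (i + 1) : ℤ) < v i := by
      have ne1 : v (i + 1) ≠ v i := fun he => add_one_ne_self i (P.injective he)
      exact_mod_cast lt_of_le_of_ne (hk _) ne1
    have lt2 : (v (i - 1) : ℤ) < v i := by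
      have ne1 : v (i - 1) ≠ v i := fun he => sub_one_ne_self i (P.injective he)
      exact_mod_cast lt_of_le_of_ne (hk _) ne1
    obtain ⟨s, hs0, hs, hd⟩ := diamond hN (P.pos (i + 1)) (P.pos (i - 1))
      (by exact_mod_cast hi) lt1 lt2 hne (P.hub' i) (P.rim_next i) (P.hub (i + 1))
      (P.rim_prev i) (P.hub (i - 1)) (P.not_adj' i)
    have key : ∀ j l : Fin 4, (j = i + 1 ∧ l = i - 1 ∨ j = i - 1 ∧ l = i + 1) →
        (∃ e : ℤ, 2 * s + v l ≤ (v j : ℤ) + e ∧ 0 ≤ e ∧
        (e = 0 → ∃ q : ℤ, 0 ≤ q ∧ q ^ 2 = (h : ℤ) * v j + 1 ∧ (v i : ℤ) = h + v j + 2 * q) ∧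
        (0 < e → 4 * (h : ℤ) * v j * e < v i)) →
        16 * h ^ 3 < v i ∨
        ∃ j, (j = i + 1 ∨ j = i - 1) ∧ (∃ q, q ^ 2 = h * v j + 1 ∧ v i = h + v j + 2 * q) ∧
          4 * (h * v i) < v j ^ 2 ∧ ∀ k, k ≠ i → v k ≤ v j := by
      rintro j l hj ⟨e, h2', he0, hreg, hbig⟩
      have hl0 := P.pos l
      have h2 : 2 * s < (v j : ℤ) + e := by omega
      rcases he0.lt_or_eq with he | he
      · left
        have := large_or_regular hN (P.pos j) hM hs0 hs h2 he (hbig he)
        exact_mod_cast this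
      · right
        obtain ⟨q, hq0, hq, hMq⟩ := hreg he.symm
        have h3 : 2 * s < (v j : ℤ) := by omega
        have h4 : (2 * s) ^ 2 < (v j : ℤ) ^ 2 := by nlinarith
        have h5 : (2 * s) ^ 2 = 4 * ((v i : ℤ) * h + 1) := by
          rw [mul_pow, hs]; ring
        have h6 : 4 * ((h : ℤ) * v i) < (v j : ℤ) ^ 2 := by
          rw [h5] at h4
          linarith [mul_comm (h : ℤ) (v i)]
        have hji : (v j : ℤ) < v i := by rcases hj with ⟨rfl, -⟩ | ⟨rfl, -⟩ <;> assumption
        refine ⟨j, hj.imp (fun h => h.1) (fun h => h.1), ⟨q.toNat, ?_, ?_⟩, ?_, ?_⟩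
        · have : ((q.toNat ^ 2 : ℕ) : ℤ) = ((h * v j + 1 : ℕ) : ℤ) := by
            push_cast
            rw [Int.toNat_of_nonneg hq0, hq]
          exact_mod_cast this
        · have : ((v i : ℕ) : ℤ) = ((h + v j + 2 * q.toNat : ℕ) : ℤ) := by
            push_cast
            rw [Int.toNat_of_nonneg hq0, hMq]
          exact_mod_cast this
        · exact_mod_cast h6
        · -- `v j` is the largest of the other three rim vertices
          intro k hki
          have hj0 := P.pos j
          have h7 : 4 * (h : ℤ) < v j := by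
            have h8 : (v j : ℤ) ^ 2 < v j * v i := by nlinarith
            have h9 : 4 * (h : ℤ) * v i < v j * v i := by nlinarith
            exact lt_of_mul_lt_mul_right h9 hM.le
          have hM4 : (v i : ℤ) < 4 * v j := by
            have h8 : q < v j := by
              have : q ^ 2 < (v j : ℤ) ^ 2 := by rw [hq]; nlinarith
              exact lt_of_pow_lt_pow_left₀ 2 hj0.le this
            omega
          rcases cases_fin i j l k hj hki with rfl | rfl | rfl
          · exact le_rfl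
          · have : (v k : ℤ) ≤ v j := by omega
            exact_mod_cast this
          · by_contra hlt
            have hlt' : (v j : ℤ) < v (i + 2) := by exact_mod_cast not_le.1 hlt
            have hkM : (v (i + 2) : ℤ) < v i := by
              exact_mod_cast lt_of_le_of_ne (hk _) (fun he => hki (P.injective he))
            have hadj : IsSquare ((v (i + 2) : ℤ) * v j + 1) := by
              rcases hj with ⟨rfl, -⟩ | ⟨rfl, -⟩
              · exact P.opp_next i
              · exact P.opp_prev i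
            obtain ⟨s', hs0', hs'⟩ := root _ (P.hub' (i + 2))
            obtain ⟨p', hp0', hp'⟩ := root _ hadj
            obtain ⟨e', X, he0', -, -, -, hr', hb'⟩ :=
              triple_data (M := v (i + 2)) (N := h) (a := v j) hN hj0 (by omega) hlt' hs0' hp0'
                hq0 hs' hp' hq
            rcases he0'.lt_or_eq with h10 | h10
            · have h11 := hb' h10
              have h13 : 1 ≤ (h : ℤ) * e' := by
                have := mul_pos hN h10
                omega
              have h12 : 4 * (v j : ℤ) ≤ 4 * h * v j * e' := by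
                calc 4 * (v j : ℤ) = 4 * v j * 1 := by ring
                  _ ≤ 4 * v j * (h * e') := mul_le_mul_of_nonneg_left h13 (by omega)
                  _ = 4 * h * v j * e' := by ring
              omega
            · have h11 := hr' h10.symm
              omega
    rcases hd with hd | hd
    · exact key (i + 1) (i - 1) (Or.inl ⟨rfl, rfl⟩) hd
    · exact key (i - 1) (i + 1) (Or.inr ⟨rfl, rfl⟩) hd

end Pool.Agent.Results.MP_6d8c3e_nt.LargestVertex
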