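import Mathlib

set_option autoImplicit false

/-!
# Prime differences in a pyramid graph

If `a < b` are positive integers with `a b + 1 = r ^ 2` and `b - a` is a power of an odd prime `p`,
or twice or four times such a power, then `a` and `b` have at most one common neighbour below `b`,
namely `a + b - 2 r`.
Hence if both rim neighbours of the rim vertex `v i` of a pyramid with hub `h` are smaller than
`max h (v i)`, then `|h - v i|` is not of this form.
-/

namespace Pool.Agent.Results.MP_6d8c3e_nt.PrimeDifference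

/-- A common neighbour `x < b` of `a` and `b` is `a + b - 2 r`. -/
lemma core (a b x r s t D : ℤ) (ha : 0 < a) (hab : a < b) (hx : 0 < x) (hxb : x < b)
    (hr : 0 ≤ r) (hs : 0 ≤ s) (ht : 0 ≤ t) (h1 : a * b + 1 = r * r) (h2 : a * x + 1 = s * s)
    (h3 : b * x + 1 = t * t) (hD : b - a = D) (hD2 : 2 < D)
    (hdvd : D ∣ 2 * (t - s) ∨ D ∣ 2 * (t + s)) : x = a + b - 2 * r := by
  have hb : 0 < b := ha.trans hab
  have htx : x < t := by
    by_contra hcon
    have h4 : t ≤ x := not_lt.1 hcon
    have h5 : t * t ≤ x * x := mul_self_le_mul_self ht h4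
    have h6 : x * x ≤ b * x := mul_le_mul_of_nonneg_right hxb.le hx.le
    linarith
  have hst : s < t := by
    by_contra hcon
    have h4 : t ≤ s := not_lt.1 hcon
    have h5 : t * t ≤ s * s := mul_self_le_mul_self ht h4
    have h6 : a * x < b * x := mul_lt_mul_of_pos_right hab hx
    linarith
  have hr2 : 2 ≤ r := by
    by_contra hcon
    have h4 : r ≤ 1 := by omega
    have h5 : r * r ≤ 1 * 1 := mul_self_le_mul_self hr h4
    have h6 : 0 < a * b := mul_pos ha hb
    linarith
  have hdiff : (t - s) * (t + s) = D * x := by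
    rw [← hD]; linear_combination h2 - h3
  have hDpos : 0 < D := by linarith
  -- `r ^ 2 + 3` is not a square
  have nosq : ∀ w : ℤ, w * w = a * b + 4 → False := by
    intro w hw
    have h4 : |w| * |w| = r * r + 3 := by rw [abs_mul_abs_self, hw]; linarith
    have h5 : 0 ≤ |w| := abs_nonneg w
    have h6 : r < |w| := by
      by_contra hcon
      have h7 : |w| ≤ r := not_lt.1 hcon
      have h8 : |w| * |w| ≤ r * r := mul_self_le_mul_self h5 h7
      linarith
    have h7 : r + 1 ≤ |w| := by omega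
    have h8 : (r + 1) * (r + 1) ≤ |w| * |w| := mul_self_le_mul_self (by linarith) h7
    have h9 : (r + 1) * (r + 1) = r * r + 2 * r + 1 := by ring
    linarith
  rcases hdvd with ⟨k, hk⟩ | ⟨k, hk⟩
  · exfalso
    have hkpos : 0 < k := by
      by_contra hcon
      have h4 : k ≤ 0 := not_lt.1 hcon
      have h5 : D * k ≤ D * 0 := mul_le_mul_of_nonneg_left h4 hDpos.le
      linarith
    have hk2 : k * (t + s) = 2 * x := by
      have h4 : D * (k * (t + s)) = D * (2 * x) := by
        linear_combination 2 * hdiff - (t + s) * hk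
      exact mul_left_cancel₀ hDpos.ne' h4
    have hk1 : k = 1 := by
      by_contra hcon
      have h4 : 2 ≤ k := by omega
      have h5 : 2 * (t + s) ≤ k * (t + s) := mul_le_mul_of_nonneg_right h4 (by linarith)
      linarith
    subst hk1
    -- `(4 x - (a + b)) ^ 2 = 4 (a b + 4)`
    have e1 : 4 * t = 4 * x + D := by linarith
    have e2 : 4 * s = 4 * x - D := by linarith
    have h4 : (4 * x - (a + b)) ^ 2 = 4 * (a * b + 4) := by
      have h5 : (4 * t) * (4 * t) = 16 * (b * x + 1) := by rw [h3]; ring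
      have h6 : (4 * s) * (4 * s) = 16 * (a * x + 1) := by rw [h2]; ring
      rw [e1] at h5
      rw [e2] at h6
      rw [← hD] at h5 h6
      have h7 : 2 * (4 * x - (a + b)) ^ 2 = 2 * (4 * (a * b + 4)) := by
        linear_combination h5 + h6
      linarith
    have h5 : Even (4 * x - (a + b)) := by
      have h6 : Even ((4 * x - (a + b)) ^ 2) := by
        rw [h4]; exact ⟨2 * (a * b + 4), by ring⟩
      exact (Int.even_pow.1 h6).1
    obtain ⟨w, hw⟩ := h5
    apply nosq w
    rw [hw] at h4
    have h6 : (w + w) ^ 2 = 4 * (w * w) := by ring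
    linarith
  · have hkpos : 0 < k := by
      by_contra hcon
      have h4 : k ≤ 0 := not_lt.1 hcon
      have h5 : D * k ≤ D * 0 := mul_le_mul_of_nonneg_left h4 hDpos.le
      linarith
    obtain ⟨m, hm⟩ : ∃ m, m = t - s := ⟨_, rfl⟩
    have hmpos : 0 < m := by linarith
    have hkm : k * m = 2 * x := by
      have h4 : D * (k * m) = D * (2 * x) := by
        rw [hm]
        linear_combination 2 * hdiff - (t - s) * hk
      exact mul_left_cancel₀ hDpos.ne' h4
    have e1 : 4 * t = D * k + 2 * m := by rw [hm]; linarith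
    have hW : (k * (a + b) - 2 * m) ^ 2 = 4 * (a * b * k ^ 2 + 4) := by
      have h5 : (4 * t) * (4 * t) = 16 * (b * x + 1) := by rw [h3]; ring
      rw [e1, ← hD] at h5
      linear_combination h5 - 8 * b * hkm
    have h5 : Even (k * (a + b) - 2 * m) := by
      have h6 : Even ((k * (a + b) - 2 * m) ^ 2) := by
        rw [hW]; exact ⟨2 * (a * b * k ^ 2 + 4), by ring⟩
      exact (Int.even_pow.1 h6).1
    obtain ⟨w, hw⟩ := h5
    have hw2 : w * w = a * b * k ^ 2 + 4 := by
      rw [hw] at hW
      have h6 : (w + w) ^ 2 = 4 * (w * w) := by ring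
      linarith
    have hcases : k = 1 ∨ k = 2 ∨ 3 ≤ k := by omega
    rcases hcases with hk1 | hk1 | hk1
    · exfalso
      subst hk1
      exact nosq w (by rw [hw2]; ring)
    · subst hk1
      have hmx : m = x := by linarith
      have h6 : (w - 2 * r) * (w + 2 * r) = 0 := by
        linear_combination hw2 + 4 * h1
      rcases mul_eq_zero.1 h6 with h7 | h7
      · linarith
      · exfalso
        linarith
    · exfalso
      have hk9 : 3 * 3 ≤ k * k := mul_self_le_mul_self (by norm_num) hk1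
      have habr : 2 * r < a + b := by
        by_contra hcon
        have h6 : a + b ≤ 2 * r := not_lt.1 hcon
        have h7 : (a + b) * (a + b) = D * D + 4 * (r * r) - 4 := by
          rw [← hD, ← h1]; ring
        have h8 : (a + b) * (a + b) ≤ (2 * r) * (2 * r) :=
          mul_self_le_mul_self (by linarith) h6
        have h9 : (2 * r) * (2 * r) = 4 * (r * r) := by ring
        have h10 : (3 : ℤ) * 3 ≤ D * D := mul_self_le_mul_self (by norm_num) (by omega)
        linarith
      rcases lt_or_ge w 0 with hneg | hpos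
      · -- `2 m > k (a + b)`
        have h6 : k * (a + b) < 2 * m := by linarith
        have h7 : k * (k * (a + b)) < k * (2 * m) := mul_lt_mul_of_pos_left h6 hkpos
        have h8 : k * (2 * m) = 2 * (k * m) := by ring
        have h9 : 3 * 3 * (a + b) ≤ k * k * (a + b) :=
          mul_le_mul_of_nonneg_right hk9 (by linarith)
        have h10 : k * (k * (a + b)) = k * k * (a + b) := by ring
        linarith
      · have h9 : w * w = r * r * (k * k) - k * k + 4 := by
          rw [hw2]; linear_combination (k * k) * h1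
        have hlt : w < r * k := by
          by_contra hcon
          have h6 : r * k ≤ w := not_lt.1 hcon
          have h7 : 0 ≤ r * k := mul_nonneg hr hkpos.le
          have h8 : (r * k) * (r * k) ≤ w * w := mul_self_le_mul_self h7 h6
          have h10 : (r * k) * (r * k) = r * r * (k * k) := by ring
          linarith
        have hle : w ≤ r * k - 1 := by linarith [Int.add_one_le_iff.2 hlt]
        have hk2r : 2 * r + 1 ≤ k := by
          by_contra hcon
          have h6 : k ≤ 2 * r := by omega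
          have h7 : w * w ≤ (r * k - 1) * (r * k - 1) := mul_self_le_mul_self hpos hle
          have h10 : k * k ≤ k * (2 * r) := mul_le_mul_of_nonneg_left h6 hkpos.le
          have h11 : (r * k - 1) * (r * k - 1) = r * r * (k * k) - 2 * (r * k) + 1 := by ring
          have h12 : k * (2 * r) = 2 * (r * k) := by ring
          linarith
        have h2m : k + 2 ≤ 2 * m := by
          have h6 : k * 1 ≤ k * (a + b - 2 * r) :=
            mul_le_mul_of_nonneg_left (by linarith) hkpos.le
          have h7 : k * (a + b - 2 * r) = k * (a + b) - 2 * (r * k) := by ring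
          linarith
        have h4x : k * (k + 2) ≤ 4 * x := by
          have h6 : k * (k + 2) ≤ k * (2 * m) := mul_le_mul_of_nonneg_left h2m hkpos.le
          have h7 : k * (2 * m) = 2 * (k * m) := by ring
          linarith
        have h6 : (2 * r + 1) * (2 * r + 3) ≤ k * (k + 2) :=
          mul_le_mul hk2r (by linarith) (by linarith) hkpos.le
        have h7 : 1 * b ≤ a * b := mul_le_mul_of_nonneg_right (by linarith) hb.le
        have h8 : (2 * r + 1) * (2 * r + 3) = 4 * (r * r) + 8 * r + 3 := by ring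
        linarith

/-- If `b - a` is a power of the odd prime `p`, or twice or four times such a power, then `p` does
not divide both `t - s` and `t + s`. -/
lemma pcase (a b x r s t : ℤ) (p k c : ℕ) (hc : c = 1 ∨ c = 2 ∨ c = 4) (hp : p.Prime)
    (hp2 : p ≠ 2)
    (ha : 0 < a) (hab : a < b)
    (hx : 0 < x) (hxb : x < b) (hr : 0 ≤ r) (hs : 0 < s) (ht : 0 < t)
    (h1 : a * b + 1 = r * r) (h2 : a * x + 1 = s * s)
    (h3 : b * x + 1 = t * t) (hD : b - a = c * (p : ℤ) ^ k)
    (hu : (p : ℤ) ∣ t - s) (hv : (p : ℤ) ∣ t + s) : False := by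
  have hb : 0 < b := ha.trans hab
  have hpz : Prime (p : ℤ) := Nat.prime_iff_prime_int.1 hp
  have hst : s < t := by
    by_contra hcon
    have h4 : t ≤ s := not_lt.1 hcon
    have h5 : t * t ≤ s * s := mul_self_le_mul_self ht.le h4
    have h6 : a * x < b * x := mul_lt_mul_of_pos_right hab hx
    linarith
  have hcop2 : IsCoprime (p : ℤ) 2 := by
    have h4 : Nat.Coprime p 2 := (Nat.coprime_primes hp Nat.prime_two).2 hp2
    exact_mod_cast Nat.isCoprime_iff_coprime.2 h4
  have hps : (p : ℤ) ∣ s := by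
    have h4 : (p : ℤ) ∣ 2 * s := by
      have h5 := dvd_sub hv hu
      rwa [show t + s - (t - s) = 2 * s by ring] at h5
    exact hcop2.dvd_of_dvd_mul_left h4
  have hpt : (p : ℤ) ∣ t := by
    have h4 := dvd_sub hv hps
    rwa [show t + s - s = t by ring] at h4
  have hpx : ¬ (p : ℤ) ∣ x := by
    intro h4
    have h5 : (p : ℤ) ∣ 1 := by
      have h6 := dvd_sub (hps.mul_left s) (h4.mul_left a)
      rwa [← h2, show a * x + 1 - a * x = 1 by ring] at h6
    exact hpz.not_isUnit (isUnit_of_dvd_one h5)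
  -- the partner of `x`
  obtain ⟨q, hq⟩ : ∃ q, q = s * t - x * r := ⟨_, rfl⟩
  obtain ⟨y, hy⟩ : ∃ y, y = r * s - a * t := ⟨_, rfl⟩
  obtain ⟨e, he⟩ : ∃ e, e = a + b + x + 2 * (a * b * x) - 2 * (r * (s * t)) := ⟨_, rfl⟩
  have hqe : q * q = x * e + 1 := by
    rw [hq, he]
    linear_combination (-(t * t)) * h2 - (a * x + 1) * h3 - (x * x) * h1
  have hye : y * y = a * e + 1 := by
    rw [hy, he]
    linear_combination (-(s * s)) * h1 - (a * b + 1) * h2 - (a * a) * h3
  have htid : t = s * q + x * y := by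
    rw [hq, hy]
    linear_combination t * h2
  have hpy : (p : ℤ) ∣ y := by
    rw [hy]; exact dvd_sub (hps.mul_left r) (hpt.mul_left a)
  have he0 : e ≠ 0 := by
    intro h4
    rw [h4, mul_zero, zero_add] at hye
    have h5 : (p : ℤ) ∣ 1 := by rw [← hye]; exact hpy.mul_left y
    exact hpz.not_isUnit (isUnit_of_dvd_one h5)
  have hq0 : 0 < q := by
    have h4 : x * r < s * t := by
      by_contra hcon
      have h5 : s * t ≤ x * r := not_lt.1 hcon
      have h6 : (s * t) * (s * t) ≤ (x * r) * (x * r) :=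
        mul_self_le_mul_self (mul_pos hs ht).le h5
      have h7 : (s * t) * (s * t) = a * b * (x * x) + (a + b) * x + 1 := by
        have : (s * t) * (s * t) = (s * s) * (t * t) := by ring
        rw [this, ← h2, ← h3]; ring
      have h8 : (x * r) * (x * r) = a * b * (x * x) + x * x := by
        have : (x * r) * (x * r) = (x * x) * (r * r) := by ring
        rw [this, ← h1]; ring
      have h9 : x * x ≤ (a + b) * x := mul_le_mul_of_nonneg_right (by linarith) hx.le
      linarith
    linarith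
  have hy0 : 0 < y := by
    have h4 : a * t < r * s := by
      by_contra hcon
      have h5 : r * s ≤ a * t := not_lt.1 hcon
      have h6 : (r * s) * (r * s) ≤ (a * t) * (a * t) :=
        mul_self_le_mul_self (mul_nonneg hr hs.le) h5
      have h7 : (r * s) * (r * s) = a * a * (b * x) + a * b + a * x + 1 := by
        have : (r * s) * (r * s) = (r * r) * (s * s) := by ring
        rw [this, ← h1, ← h2]; ring
      have h8 : (a * t) * (a * t) = a * a * (b * x) + a * a := by
        have : (a * t) * (a * t) = (a * a) * (t * t) := by ring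
        rw [this, ← h3]; ring
      have h9 : a * a ≤ a * b := mul_le_mul_of_nonneg_left hab.le ha.le
      have h10 : 0 < a * x := mul_pos ha hx
      linarith
    linarith
  have hq1 : q ≠ 1 := by
    intro h4
    rw [h4] at hqe
    have h5 : x * e = 0 := by linarith
    rcases mul_eq_zero.1 h5 with h6 | h6
    · exact hx.ne' h6
    · exact he0 h6
  -- the powers of `p` in `t - s` and `t + s`
  obtain ⟨U, hU⟩ := Int.eq_ofNat_of_zero_le (show 0 ≤ t - s by linarith)
  obtain ⟨V, hV⟩ := Int.eq_ofNat_of_zero_le (show 0 ≤ t + s by linarith)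
  obtain ⟨X, hX⟩ := Int.eq_ofNat_of_zero_le hx.le
  have hU0 : U ≠ 0 := by
    rintro rfl
    push_cast at hU
    linarith
  have hV0 : V ≠ 0 := by
    rintro rfl
    push_cast at hV
    linarith
  obtain ⟨i, α, hα, hUα⟩ := Nat.exists_eq_pow_mul_and_not_dvd hU0 p hp.ne_one
  obtain ⟨j, β, hβ, hVβ⟩ := Nat.exists_eq_pow_mul_and_not_dvd hV0 p hp.ne_one
  have hUV : U * V = p ^ k * (c * X) := by
    have h4 : ((U : ℤ)) * V = (p : ℤ) ^ k * (c * X) := by
      rw [← hU, ← hV, ← hX]
      linear_combination h2 - h3 + x * hD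
    exact_mod_cast h4
  have hpX : ¬ p ∣ c * X := by
    intro h4
    rcases hp.dvd_mul.1 h4 with h5 | h5
    · rcases hc with h6 | h6 | h6
      · rw [h6] at h5
        exact hp.one_lt.ne' (Nat.dvd_one.1 h5)
      · rw [h6] at h5
        exact hp2 ((Nat.prime_dvd_prime_iff_eq hp Nat.prime_two).1 h5)
      · rw [h6, show 4 = 2 * 2 by norm_num] at h5
        rcases hp.dvd_mul.1 h5 with h7 | h7 <;>
          exact hp2 ((Nat.prime_dvd_prime_iff_eq hp Nat.prime_two).1 h7)
    · apply hpx
      rw [hX]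
      exact_mod_cast h5
  have hαβ : ¬ p ∣ α * β := fun h4 => (hp.dvd_mul.1 h4).elim hα hβ
  have hprod : p ^ (i + j) * (α * β) = p ^ k * (c * X) := by
    rw [← hUV, hUα, hVβ, pow_add]; ring
  have hij : i + j = k := by
    rcases lt_trichotomy (i + j) k with h4 | h4 | h4
    · exfalso
      obtain ⟨d, rfl⟩ := Nat.exists_eq_add_of_lt h4
      apply hαβ
      have h5 : p ^ (i + j) * (α * β) = p ^ (i + j) * (p * (p ^ d * (c * X))) := by
        rw [hprod]; ring
      exact ⟨_, Nat.eq_of_mul_eq_mul_left (pow_pos hp.pos _) h5⟩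
    · exact h4
    · exfalso
      obtain ⟨d, hd⟩ := Nat.exists_eq_add_of_lt h4
      apply hpX
      have h5 : p ^ k * (c * X) = p ^ k * (p * (p ^ d * (α * β))) := by
        rw [← hprod, hd]; ring
      exact ⟨_, Nat.eq_of_mul_eq_mul_left (pow_pos hp.pos _) h5⟩
  have hxαβ : α * β = c * X := by
    rw [hij] at hprod
    exact Nat.eq_of_mul_eq_mul_left (pow_pos hp.pos _) hprod
  have hα0 : 0 < α := by
    rcases Nat.eq_zero_or_pos α with h4 | h4
    · exact absurd (h4 ▸ dvd_zero p) hα
    · exact h4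
  have hβ0 : 0 < β := by
    rcases Nat.eq_zero_or_pos β with h4 | h4
    · exact absurd (h4 ▸ dvd_zero p) hβ
    · exact h4
  have hUz : t - s = (p : ℤ) ^ i * α := by rw [hU, hUα]; push_cast; ring
  have hVz : t + s = (p : ℤ) ^ j * β := by rw [hV, hVβ]; push_cast; ring
  have hpdv : ∀ m : ℕ, (p : ℤ) ^ m ∣ t - s → (p : ℤ) ^ m ∣ t + s →
      (p : ℤ) ^ m ∣ s ∧ (p : ℤ) ^ m ∣ y := by
    intro m h4 h5
    have h6 : (p : ℤ) ^ m ∣ 2 * s := by
      have h7 := dvd_sub h5 h4
      rwa [show t + s - (t - s) = 2 * s by ring] at h7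
    have h8 : (p : ℤ) ^ m ∣ s := (hcop2.pow_left (m := m)).dvd_of_dvd_mul_left h6
    have h9 : (p : ℤ) ^ m ∣ t := by
      have h10 := dvd_sub h5 h8
      rwa [show t + s - s = t by ring] at h10
    refine ⟨h8, ?_⟩
    rw [hy]; exact dvd_sub (h8.mul_left r) (h9.mul_left a)
  have hdi : i ≤ j → (p : ℤ) ^ i ∣ s ∧ (p : ℤ) ^ i ∣ y := by
    intro h4
    apply hpdv i
    · rw [hUz]; exact dvd_mul_right _ _
    · rw [hVz]; exact (pow_dvd_pow _ h4).mul_right _
  have hdj : j ≤ i → (p : ℤ) ^ j ∣ s ∧ (p : ℤ) ^ j ∣ y := by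
    intro h4
    apply hpdv j
    · rw [hUz]; exact (pow_dvd_pow _ h4).mul_right _
    · rw [hVz]; exact dvd_mul_right _ _
  have hq2 : 0 < q - 1 := by omega
  have hppos : (0 : ℤ) < p := by exact_mod_cast hp.pos
  have hid1 : t - s = s * (q - 1) + x * y := by
    have h7 : s * (q - 1) = s * q - s := by ring
    linarith
  have hid2 : t + s = s * (q + 1) + x * y := by
    have h7 : s * (q + 1) = s * q + s := by ring
    linarith
  -- the main cases
  have hi : i ≤ j → α ≤ X → False := by
    intro h3' h4'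
    have h4 : (p : ℤ) ^ i ≤ y := Int.le_of_dvd hy0 (hdi h3').2
    have hαx : (α : ℤ) ≤ x := by rw [hX]; exact_mod_cast h4'
    have h5 : (p : ℤ) ^ i * α ≤ y * x :=
      mul_le_mul h4 hαx (Int.natCast_nonneg α) hy0.le
    have h6 : 0 < s * (q - 1) := mul_pos hs hq2
    have h8 : y * x = x * y := by ring
    linarith
  have hj : j ≤ i → β ≤ X → False := by
    intro h3' h4'
    have h4 : (p : ℤ) ^ j ≤ y := Int.le_of_dvd hy0 (hdj h3').2
    have hβx : (β : ℤ) ≤ x := by rw [hX]; exact_mod_cast h4'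
    have h5 : (p : ℤ) ^ j * β ≤ y * x :=
      mul_le_mul h4 hβx (Int.natCast_nonneg β) hy0.le
    have h6 : 0 < s * (q + 1) := mul_pos hs (by linarith)
    have h8 : y * x = x * y := by ring
    linarith
  rcases hc with h4 | hc'
  · rw [h4, one_mul] at hxαβ
    rcases le_total i j with hle' | hle'
    · exact hi hle' (by rw [← hxαβ]; exact Nat.le_mul_of_pos_right _ hβ0)
    · exact hj hle' (by rw [← hxαβ]; exact Nat.le_mul_of_pos_left _ hα0)
  -- `α` and `β` are even
  have hpar : U % 2 = V % 2 := by omega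
  have hceven : c = 2 * (c / 2) := by omega
  have hev : U % 2 = 0 := by
    by_contra h5
    have h6 : U % 2 = 1 := by omega
    have h7 : V % 2 = 1 := by omega
    have h8 : (U * V) % 2 = 1 := by rw [Nat.mul_mod, h6, h7]
    have h9 : (p ^ k * (c * X)) % 2 = 0 := by
      rw [hceven, show p ^ k * (2 * (c / 2) * X) = 2 * (p ^ k * (c / 2 * X)) by ring]
      exact Nat.mul_mod_right 2 _
    rw [hUV, h9] at h8
    omega
  have hpodd : p % 2 = 1 := hp.eq_two_or_odd.resolve_left hp2
  have hcopm : ∀ m : ℕ, Nat.Coprime 2 (p ^ m) := fun m =>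
    Nat.Coprime.pow_right m ((Nat.coprime_primes Nat.prime_two hp).2 (Ne.symm hp2))
  have hα2 : 2 ∣ α := by
    have h5 : 2 ∣ p ^ i * α := by rw [← hUα]; exact Nat.dvd_of_mod_eq_zero hev
    exact (hcopm i).dvd_of_dvd_mul_left h5
  have hβ2 : 2 ∣ β := by
    have h5 : 2 ∣ p ^ j * β := by
      rw [← hVβ]; exact Nat.dvd_of_mod_eq_zero (by omega)
    exact (hcopm j).dvd_of_dvd_mul_left h5
  have hα2' : 2 ≤ α := Nat.le_of_dvd hα0 hα2
  have hβ2' : 2 ≤ β := Nat.le_of_dvd hβ0 hβ2
  rcases hc' with h4 | h4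
  · rw [h4] at hxαβ
    rcases le_total i j with hle' | hle'
    · apply hi hle'
      have h5 : α * 2 ≤ α * β := Nat.mul_le_mul_left _ hβ2'
      omega
    · apply hj hle'
      have h5 : 2 * β ≤ α * β := Nat.mul_le_mul_right _ hα2'
      omega
  -- `c = 4`
  rw [h4] at hxαβ
  have hX2 : α = 2 ∨ β = 2 → 2 ≤ X := by
    intro h5
    by_contra h6
    have hX1 : X = 1 := by
      have h7 : X ≠ 0 := by
        rintro rfl
        push_cast at hX
        omega
      omega
    rw [hX1] at hxαβ hX
    have hα4 : α = 2 := by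
      rcases h5 with h7 | h7
      · exact h7
      · rw [h7] at hxαβ; omega
    have hβ4 : β = 2 := by
      rw [hα4] at hxαβ; omega
    rw [hα4] at hUz
    rw [hβ4] at hVz
    have ho : ∀ m : ℕ, Odd ((p : ℤ) ^ m) := by
      intro m
      have h7 : Odd (p : ℤ) := by
        rw [Int.odd_iff]; omega
      exact h7.pow
    obtain ⟨u1, hu1⟩ := ho i
    obtain ⟨v1, hv1⟩ := ho j
    rw [hu1] at hUz
    rw [hv1] at hVz
    push_cast at hUz hVz hX
    have es : s = 2 * (v1 - u1) := by linarith
    have et : t = 2 * (u1 + v1 + 1) := by linarith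
    rw [hX, mul_one, es] at h2
    rw [hX, mul_one, et] at h3
    obtain ⟨A, hA⟩ : ∃ A, A = (v1 - u1) * (v1 - u1) := ⟨_, rfl⟩
    obtain ⟨B, hB⟩ : ∃ B, B = (u1 + v1 + 1) * (u1 + v1 + 1) := ⟨_, rfl⟩
    have ea : a = 4 * A - 1 := by rw [hA]; linarith
    have eb : b = 4 * B - 1 := by rw [hB]; linarith
    rw [ea, eb] at h1
    have h8 : (4 * A - 1) * (4 * B - 1) + 1 = 4 * (4 * (A * B) - A - B) + 2 := by ring
    rw [h8] at h1
    rcases Int.even_or_odd r with ⟨r1, hr1⟩ | ⟨r1, hr1⟩
    · have h9 : r * r = 4 * (r1 * r1) := by rw [hr1]; ring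
      omega
    · have h9 : r * r = 4 * (r1 * r1) + 4 * r1 + 1 := by rw [hr1]; ring
      omega
  have hα4 : α = 2 ∨ 4 ≤ α := by omega
  have hβ4 : β = 2 ∨ 4 ≤ β := by omega
  rcases le_total i j with hle' | hle'
  · -- `β = 2` or `α ≤ X`
    rcases hβ4 with h5 | h5
    · -- `α = 2 X`
      obtain ⟨⟨n', hn'⟩, ⟨n, hn⟩⟩ := hdi hle'
      have hpi : (0 : ℤ) < (p : ℤ) ^ i := pow_pos hppos _
      obtain ⟨P, hP⟩ : ∃ P, P = (p : ℤ) ^ i := ⟨_, rfl⟩
      rw [← hP] at hn' hn hpi hUz
      have hαz : (α : ℤ) = 2 * x := by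
        rw [h5] at hxαβ
        rw [hX]
        have : α = 2 * X := by omega
        exact_mod_cast this
      have hn0 : 0 < n := by
        by_contra h6
        have h7 : P * n ≤ P * 0 := mul_le_mul_of_nonneg_left (not_lt.1 h6) hpi.le
        linarith
      have hn'0 : 0 < n' := by
        by_contra h6
        have h7 : P * n' ≤ P * 0 := mul_le_mul_of_nonneg_left (not_lt.1 h6) hpi.le
        linarith
      have hmain : 2 * x = n' * (q - 1) + x * n := by
        have h6 : P * (2 * x) = P * (n' * (q - 1) + x * n) := by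
          linear_combination (-1 : ℤ) * hUz - P * hαz + hid1 + (q - 1) * hn' + x * hn
        exact mul_left_cancel₀ hpi.ne' h6
      have hprodpos : 0 < n' * (q - 1) := mul_pos hn'0 hq2
      have hn1 : n = 1 := by
        by_contra h6
        have h7 : 2 ≤ n := by omega
        have h8 : x * 2 ≤ x * n := mul_le_mul_of_nonneg_left h7 hx.le
        linarith
      rw [hn1] at hmain hn
      have hx' : x = n' * (q - 1) := by linarith
      have hqe' : q + 1 = n' * e := by
        have h6 : (q - 1) * (q + 1) = (q - 1) * (n' * e) := by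
          linear_combination hqe + e * hx'
        exact mul_left_cancel₀ hq2.ne' h6
      have h6 : 2 * (a * n') + n' * n' = 1 := by
        have h7 : s * s = n' * n' * (a * e + 1) := by
          rw [← hye, hn, hn']; ring
        rw [← h2] at h7
        linear_combination (-1 : ℤ) * h7 + a * hx' + a * n' * hqe'
      have h7 : 0 < a * n' := mul_pos ha hn'0
      have h8 : 0 < n' * n' := mul_pos hn'0 hn'0
      omega
    · apply hi hle'
      have h6 : α * 4 ≤ α * β := Nat.mul_le_mul_left _ h5
      omega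
  · rcases hα4 with h5 | h5
    · -- `β = 2 X`
      obtain ⟨⟨n', hn'⟩, ⟨n, hn⟩⟩ := hdj hle'
      have hpi : (0 : ℤ) < (p : ℤ) ^ j := pow_pos hppos _
      obtain ⟨P, hP⟩ : ∃ P, P = (p : ℤ) ^ j := ⟨_, rfl⟩
      rw [← hP] at hn' hn hpi hVz
      have hβz : (β : ℤ) = 2 * x := by
        rw [h5] at hxαβ
        rw [hX]
        have : β = 2 * X := by omega
        exact_mod_cast this
      have hn0 : 0 < n := by
        by_contra h6
        have h7 : P * n ≤ P * 0 := mul_le_mul_of_nonneg_left (not_lt.1 h6) hpi.le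
        linarith
      have hn'0 : 0 < n' := by
        by_contra h6
        have h7 : P * n' ≤ P * 0 := mul_le_mul_of_nonneg_left (not_lt.1 h6) hpi.le
        linarith
      have hmain : 2 * x = n' * (q + 1) + x * n := by
        have h6 : P * (2 * x) = P * (n' * (q + 1) + x * n) := by
          linear_combination (-1 : ℤ) * hVz - P * hβz + hid2 + (q + 1) * hn' + x * hn
        exact mul_left_cancel₀ hpi.ne' h6
      have hq3 : 0 < q + 1 := by linarith
      have hprodpos : 0 < n' * (q + 1) := mul_pos hn'0 hq3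
      have hn1 : n = 1 := by
        by_contra h6
        have h7 : 2 ≤ n := by omega
        have h8 : x * 2 ≤ x * n := mul_le_mul_of_nonneg_left h7 hx.le
        linarith
      rw [hn1] at hmain hn
      have hx' : x = n' * (q + 1) := by linarith
      have hqe' : q - 1 = n' * e := by
        have h6 : (q + 1) * (q - 1) = (q + 1) * (n' * e) := by
          linear_combination hqe + e * hx'
        exact mul_left_cancel₀ hq3.ne' h6
      have h6 : n' * (n' - 2 * a) = 1 := by
        have h7 : s * s = n' * n' * (a * e + 1) := by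
          rw [← hye, hn, hn']; ring
        rw [← h2] at h7
        linear_combination (-1 : ℤ) * h7 + a * hx' + a * n' * hqe'
      have h7 : n' ∣ 1 := ⟨n' - 2 * a, h6.symm⟩
      have h8 : n' ≤ 1 := Int.le_of_dvd one_pos h7
      have h9 : n' = 1 := by omega
      rw [h9] at h6
      omega
    · apply hj hle'
      have h6 : 4 * β ≤ α * β := Nat.mul_le_mul_right _ h5
      omega

/-- Two common neighbours of `a` and `b` below `b` are equal if `b - a` is a power of `p`, or twice
or four times a power of `p`. -/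
lemma unique (a b x y p k : ℕ) (hp : p.Prime) (hp2 : p ≠ 2) (ha : 0 < a) (hab : a < b)
    (hD : (b : ℤ) - a = (p : ℤ) ^ (k + 1) ∨ (b : ℤ) - a = 2 * (p : ℤ) ^ (k + 1) ∨
      (b : ℤ) - a = 4 * (p : ℤ) ^ (k + 1))
    (h1 : IsSquare (a * b + 1)) (hx : 0 < x) (hxb : x < b) (hy : 0 < y) (hyb : y < b)
    (x1 : IsSquare (a * x + 1)) (x2 : IsSquare (b * x + 1))
    (y1 : IsSquare (a * y + 1)) (y2 : IsSquare (b * y + 1)) : x = y := by
  obtain ⟨r, hr⟩ := h1
  have hp3 : 3 ≤ p := by
    have := hp.two_le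
    omega
  have hp3' : (3 : ℤ) ≤ p := by exact_mod_cast hp3
  have hD2 : (2 : ℤ) < (b : ℤ) - a := by
    have h3 : (p : ℕ) ≤ p ^ (k + 1) := Nat.le_self_pow (Nat.succ_ne_zero k) p
    have h4 : (p : ℤ) ≤ (p : ℤ) ^ (k + 1) := by exact_mod_cast h3
    rcases hD with h2 | h2 | h2 <;> rw [h2] <;> linarith
  have hpz : Prime (p : ℤ) := Nat.prime_iff_prime_int.1 hp
  have main : ∀ z : ℕ, 0 < z → z < b → IsSquare (a * z + 1) → IsSquare (b * z + 1) →
      (z : ℤ) = a + b - 2 * r := by
    intro z hz hzb z1 z2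
    obtain ⟨s, hs⟩ := z1
    obtain ⟨t, ht⟩ := z2
    have e1 : (a : ℤ) * b + 1 = r * r := by exact_mod_cast hr
    have e2 : (a : ℤ) * z + 1 = s * s := by exact_mod_cast hs
    have e3 : (b : ℤ) * z + 1 = t * t := by exact_mod_cast ht
    have ha' : (0 : ℤ) < a := by exact_mod_cast ha
    have hab' : (a : ℤ) < b := by exact_mod_cast hab
    have hz' : (0 : ℤ) < z := by exact_mod_cast hz
    have hzb' : (z : ℤ) < b := by exact_mod_cast hzb
    have hs0 : (0 : ℤ) < s := by
      rcases Nat.eq_zero_or_pos s with h5 | h5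
      · rw [h5] at hs
        omega
      · exact_mod_cast h5
    have ht0 : (0 : ℤ) < t := by
      rcases Nat.eq_zero_or_pos t with h5 | h5
      · rw [h5] at ht
        omega
      · exact_mod_cast h5
    have hprod : ((t : ℤ) - s) * (t + s) = ((b : ℤ) - a) * z := by
      linear_combination e2 - e3
    have hpow : ∀ c : ℕ, c = 1 ∨ c = 2 ∨ c = 4 → (b : ℤ) - a = c * (p : ℤ) ^ (k + 1) →
        (p : ℤ) ^ (k + 1) ∣ (t : ℤ) - s ∨ (p : ℤ) ^ (k + 1) ∣ (t : ℤ) + s := by
      intro c hc h2
      have hdvd : (p : ℤ) ^ (k + 1) ∣ ((t : ℤ) - s) * (t + s) := by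
        rw [hprod, h2]; exact ⟨c * z, by ring⟩
      by_cases hu : (p : ℤ) ∣ (t : ℤ) - s
      · by_cases hv : (p : ℤ) ∣ (t : ℤ) + s
        · exact (pcase a b z r s t p (k + 1) c hc hp hp2 ha' hab' hz' hzb' (Int.natCast_nonneg r)
            hs0 ht0 e1 e2 e3 h2 hu hv).elim
        · left
          have h5 : IsCoprime ((p : ℤ) ^ (k + 1)) ((t : ℤ) + s) :=
            (hpz.coprime_iff_not_dvd.2 hv).pow_left
          exact h5.dvd_of_dvd_mul_right hdvd
      · right
        have h5 : IsCoprime ((p : ℤ) ^ (k + 1)) ((t : ℤ) - s) :=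
          (hpz.coprime_iff_not_dvd.2 hu).pow_left
        exact h5.dvd_of_dvd_mul_left hdvd
    have hdv : ((b : ℤ) - a) ∣ 2 * ((t : ℤ) - s) ∨ ((b : ℤ) - a) ∣ 2 * ((t : ℤ) + s) := by
      rcases hD with h2 | h2 | h2
      · rw [h2]
        exact (hpow 1 (Or.inl rfl) (by rw [h2]; push_cast; ring)).imp
          (fun h5 => h5.mul_left 2) (fun h5 => h5.mul_left 2)
      · rw [h2]
        exact (hpow 2 (Or.inr (Or.inl rfl)) (by rw [h2]; push_cast; ring)).imp
          (fun h5 => mul_dvd_mul_left 2 h5) (fun h5 => mul_dvd_mul_left 2 h5)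
      · rw [h2]
        have hcop : IsCoprime (2 : ℤ) ((p : ℤ) ^ (k + 1)) := by
          have h5 : Nat.Coprime 2 (p ^ (k + 1)) :=
            Nat.Coprime.pow_right _ ((Nat.coprime_primes Nat.prime_two hp).2 (Ne.symm hp2))
          exact_mod_cast Nat.isCoprime_iff_coprime.2 h5
        have hev : (2 : ℤ) ∣ (t : ℤ) - s ∧ (2 : ℤ) ∣ (t : ℤ) + s := by
          have h5 : (2 : ℤ) ∣ ((t : ℤ) - s) * (t + s) := by
            rw [hprod, h2]; exact ⟨2 * (p : ℤ) ^ (k + 1) * z, by ring⟩
          rcases Int.prime_two.dvd_or_dvd h5 with h6 | h6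
          · exact ⟨h6, by omega⟩
          · exact ⟨by omega, h6⟩
        have h6 : (4 : ℤ) * (p : ℤ) ^ (k + 1) = 2 * (2 * (p : ℤ) ^ (k + 1)) := by ring
        rw [h6]
        exact (hpow 4 (Or.inr (Or.inr rfl)) (by rw [h2]; push_cast; ring)).imp
          (fun h5 => mul_dvd_mul_left 2 (hcop.mul_dvd hev.1 h5))
          (fun h5 => mul_dvd_mul_left 2 (hcop.mul_dvd hev.2 h5))
    exact core a b z r s t ((b : ℤ) - a) ha' hab' hz' hzb' (Int.natCast_nonneg r) hs0.le ht0.le
      e1 e2 e3 rfl hD2 hdv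
  have hxe := main x hx hxb x1 x2
  have hye := main y hy hyb y1 y2
  have : (x : ℤ) = y := by rw [hxe, hye]
  exact_mod_cast this

theorem result (h : ℕ) (v : Fin 4 → ℕ) (hh : 0 < h) (hv : ∀ i, 0 < v i) (h02 : v 0 ≠ v 2)
    (h13 : v 1 ≠ v 3) (hub : ∀ i, IsSquare (h * v i + 1))
    (rim : ∀ i, IsSquare (v i * v (i + 1) + 1)) (i : Fin 4) (hnext : v (i + 1) < max h (v i))
    (hprev : v (i + 3) < max h (v i)) (p : ℕ) (hp : p.Prime) (hp2 : p ≠ 2) (k : ℕ) :
    |(h : ℤ) - v i| ≠ (p : ℤ) ^ (k + 1) ∧ |(h : ℤ) - v i| ≠ 2 * (p : ℤ) ^ (k + 1) ∧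
      |(h : ℤ) - v i| ≠ 4 * (p : ℤ) ^ (k + 1) := by
  have hne : v (i + 1) ≠ v (i + 3) := by
    fin_cases i
    · exact h13
    · exact h02.symm
    · exact h13.symm
    · exact h02
  have e3 : i + 3 + 1 = i := by
    rw [add_assoc, show (3 : Fin 4) + 1 = 0 from rfl, add_zero]
  have rn : IsSquare (v i * v (i + 1) + 1) := rim i
  have rp : IsSquare (v i * v (i + 3) + 1) := by
    have h1 := rim (i + 3)
    rw [e3, mul_comm] at h1
    exact h1
  have hvh : IsSquare (v i * h + 1) := by rw [mul_comm]; exact hub i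
  suffices hs : ¬ (|(h : ℤ) - v i| = (p : ℤ) ^ (k + 1) ∨
      |(h : ℤ) - v i| = 2 * (p : ℤ) ^ (k + 1) ∨ |(h : ℤ) - v i| = 4 * (p : ℤ) ^ (k + 1)) by
    rw [not_or, not_or] at hs
    exact hs
  intro hD
  have hppos : (0 : ℤ) < p := by exact_mod_cast hp.pos
  rcases lt_trichotomy h (v i) with hlt | heq | hgt
  · have habs : |(h : ℤ) - v i| = (v i : ℤ) - h := by
      rw [abs_sub_comm, abs_of_pos]
      have : (h : ℤ) < v i := by exact_mod_cast hlt
      linarith
    rw [habs] at hD
    rw [max_eq_right hlt.le] at hnext hprev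
    exact hne (unique h (v i) _ _ p k hp hp2 hh hlt hD (hub i) (hv _) hnext (hv _) hprev
      (hub _) rn (hub _) rp)
  · rw [heq, sub_self, abs_zero] at hD
    have h4 : (0 : ℤ) < (p : ℤ) ^ (k + 1) := pow_pos hppos _
    rcases hD with h1 | h1 | h1 <;> linarith
  · have habs : |(h : ℤ) - v i| = (h : ℤ) - v i := by
      rw [abs_of_pos]
      have : (v i : ℤ) < h := by exact_mod_cast hgt
      linarith
    rw [habs] at hD
    rw [max_eq_left hgt.le] at hnext hprev
    exact hne (unique (v i) h _ _ p k hp hp2 (hv i) hgt hD hvh (hv _) hnext (hv _) hprev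
      rn (hub _) rp (hub _))

end Pool.Agent.Results.MP_6d8c3e_nt.PrimeDifference
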