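import Mathlib
import Pool.Agent.H99.Pyr.Roots
import Pool.Agent.Results.MP_6d8c3e_nt.LargestVertex

/-!
# MP_6d8c3e_nt: square roots of one modulo the largest vertex of a Diophantine pyramid

Let `M` be the largest vertex of a pyramid with hub `h`.  Then `1` has at least eight square roots
modulo `M`; it has at least sixteen of them if `M = h`, and also if `M` is on the rim and is not
`h + w + 2 √(h w + 1)` for a rim neighbour `w` of `M`.
-/

namespace Pool.Agent.Results.MP_6d8c3e_nt.RootsModLargest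

open Pool.Agent.H99.Pyr Pool.Agent.Results.MP_6d8c3e_nt.LargestVertex

variable {h : ℕ} {v : Fin 4 → ℕ}

theorem to_nat_sq {n : ℕ} {z : ℤ} (h : IsSquare z) (hz : (n : ℤ) = z) : IsSquare n := by
  by_contra hn
  exact cast_not_sq hn hz h

theorem hub_case16 (P : IsPyramid h v) (hmax : ∀ i, v i < h) : 16 ≤ rootCount h := by
  classical
  have h4 : ∀ i, 4 * v i < h := by
    intro i
    obtain ⟨j, -, hj⟩ := (LargestVertex.result h v P).1 hmax i
    have h1 := P.rim_pos j
    have h2 := P.rim_pos i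
    calc 4 * v i ≤ 36 * 1 ^ 2 * (v i * 1 ^ 2) := by omega
      _ ≤ 36 * v j ^ 2 * (v i * v i ^ 2) := by gcongr <;> omega
      _ = 36 * v j ^ 2 * v i ^ 3 := by ring
      _ < h := hj
  have hM : 2 < h := by
    have := h4 0
    have := P.rim_pos 0
    omega
  have : NeZero h := ⟨by omega⟩
  have hcard : (Finset.univ.image v).card = 4 := by
    rw [Finset.card_image_of_injective _ P.injective]; rfl
  have h1 := small_neighbours hM (Finset.univ.image v) (by
    intro x hx
    obtain ⟨i, -, rfl⟩ := Finset.mem_image.1 hx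
    exact ⟨P.rim_pos i, h4 i, P.hub_adj i⟩)
  rw [hcard] at h1
  exact two_pow_sixteen (rootCount_eq_two_pow h) (by omega)

theorem rim_ne (P : IsPyramid h v) (i : Fin 4) : v (i + 1) ≠ v i ∧ v (i - 1) ≠ v i ∧
    v (i + 1) ≠ v (i - 1) :=
  ⟨fun he => add_one_ne_self i (P.injective he), fun he => sub_one_ne_self i (P.injective he),
    fun he => add_one_ne i (P.injective he)⟩

theorem rim_case8 (P : IsPyramid h v) (i : Fin 4) (hi : h < v i) (hk : ∀ k, v k ≤ v i) :
    8 ≤ rootCount (v i) := by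
  classical
  obtain ⟨n1, n2, n3⟩ := rim_ne P i
  have hh := P.hub_pos
  have l1 : v (i + 1) < v i := lt_of_le_of_ne (hk _) n1
  have l2 : v (i - 1) < v i := lt_of_le_of_ne (hk _) n2
  have p1 := P.rim_pos (i + 1)
  have p2 := P.rim_pos (i - 1)
  have q1 : IsSquare (v i * v (i + 1) + 1) := P.rim_adj i
  have q2 : IsSquare (v i * v (i - 1) + 1) :=
    to_nat_sq (P.rim_prev i) (by push_cast; ring)
  have q0 : IsSquare (v i * h + 1) := by
    have := P.hub_adj i
    rwa [mul_comm] at this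
  have r1 : IsSquare (h * v (i + 1) + 1) := P.hub_adj _
  have r1' : IsSquare (v (i + 1) * h + 1) := by rwa [mul_comm] at r1
  have r2 : IsSquare (h * v (i - 1) + 1) := P.hub_adj _
  have r2' : IsSquare (v (i - 1) * h + 1) := by rwa [mul_comm] at r2
  have e0 : h + 2 ≠ v i := no_common p1 l1 q1 r1
  have e1 : v (i + 1) + 2 ≠ v i := no_common hh hi q0 r1'
  have e2 : v (i - 1) + 2 ≠ v i := no_common hh hi q0 r2'
  have hM : 2 < v i := by
    have : h ≠ v (i + 1) := fun he => P.hub_ne _ he.symm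
    omega
  have : NeZero (v i) := ⟨by omega⟩
  have m1 : h ∉ ({v (i + 1), v (i - 1)} : Finset ℕ) := by
    simp only [Finset.mem_insert, Finset.mem_singleton, not_or]
    exact ⟨fun he => P.hub_ne _ he.symm, fun he => P.hub_ne _ he.symm⟩
  have hcard : ({h, v (i + 1), v (i - 1)} : Finset ℕ).card = 3 := by
    rw [Finset.card_insert_of_notMem m1, Finset.card_pair n3]
  have h1 := lower_neighbours hM {h, v (i + 1), v (i - 1)} (by
    intro x hx
    simp only [Finset.mem_insert, Finset.mem_singleton] at hx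
    rcases hx with rfl | rfl | rfl
    · exact ⟨hh, hi, e0, q0⟩
    · exact ⟨p1, l1, e1, q1⟩
    · exact ⟨p2, l2, e2, q2⟩)
  rw [hcard] at h1
  exact two_pow_eight (rootCount_eq_two_pow _) h1

theorem rim_case16 (P : IsPyramid h v) (i : Fin 4) (hi : h < v i) (hk : ∀ k, v k ≤ v i)
    (hreg : ∀ j, (j = i + 1 ∨ j = i - 1) → ∀ q, q ^ 2 = h * v j + 1 → v i ≠ h + v j + 2 * q) :
    16 ≤ rootCount (v i) := by
  classical
  obtain ⟨n1, n2, n3⟩ := rim_ne P i
  have hh : (0 : ℤ) < h := by exact_mod_cast P.hub_pos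
  have hi' : (h : ℤ) < v i := by exact_mod_cast hi
  have l1 : (v (i + 1) : ℤ) < v i := by exact_mod_cast lt_of_le_of_ne (hk _) n1
  have l2 : (v (i - 1) : ℤ) < v i := by exact_mod_cast lt_of_le_of_ne (hk _) n2
  have p1 := P.pos (i + 1)
  have p2 := P.pos (i - 1)
  obtain ⟨s, hs0, hs⟩ := root _ (P.hub' i)
  obtain ⟨p, hp0, hp⟩ := root _ (P.rim_next i)
  obtain ⟨q, hq0, hq⟩ := root _ (P.hub (i + 1))
  obtain ⟨p', hp0', hp'⟩ := root _ (P.rim_prev i)
  obtain ⟨q', hq0', hq'⟩ := root _ (P.hub (i - 1))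
  obtain ⟨e, X, he0, hX0, hX, hlin, hr, hb⟩ := triple_data hh p1 hi' l1 hs0 hp0 hq0 hs hp hq
  obtain ⟨e', Y, he0', -, -, -, hr', hb'⟩ := triple_data hh p2 hi' l2 hs0 hp0' hq0' hs hp' hq'
  have nonreg : ∀ j, (j = i + 1 ∨ j = i - 1) → ∀ r : ℤ, 0 ≤ r → r ^ 2 = (h : ℤ) * v j + 1 →
      (v i : ℤ) ≠ h + v j + 2 * r := by
    intro j hj r hr0 hr2 heq
    apply hreg j hj r.toNat
    · have : ((r.toNat ^ 2 : ℕ) : ℤ) = ((h * v j + 1 : ℕ) : ℤ) := by
        push_cast
        rw [Int.toNat_of_nonneg hr0, hr2]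
      exact_mod_cast this
    · have : ((v i : ℕ) : ℤ) = ((h + v j + 2 * r.toNat : ℕ) : ℤ) := by
        push_cast
        rw [Int.toNat_of_nonneg hr0, heq]
      exact_mod_cast this
  have hepos : 0 < e := by
    rcases he0.lt_or_eq with h1 | h1
    · exact h1
    · exact absurd (hr h1.symm) (nonreg _ (Or.inl rfl) q hq0 hq)
  have hepos' : 0 < e' := by
    rcases he0'.lt_or_eq with h1 | h1
    · exact h1
    · exact absurd (hr' h1.symm) (nonreg _ (Or.inr rfl) q' hq0' hq')
  have hb1 := hb hepos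
  have hb2 := hb' hepos'
  have pe1 : 1 ≤ (h : ℤ) * e := by have := mul_pos hh hepos; omega
  have pe2 : 1 ≤ (h : ℤ) * v (i + 1) := by have := mul_pos hh p1; omega
  have pe3 : 1 ≤ (v (i + 1) : ℤ) * e := by have := mul_pos p1 hepos; omega
  have pe4 : 1 ≤ (h : ℤ) * e' := by have := mul_pos hh hepos'; omega
  have s1 : 4 * (h : ℤ) < v i := by
    calc 4 * (h : ℤ) = 4 * h * 1 := by ring
      _ ≤ 4 * h * (v (i + 1) * e) := mul_le_mul_of_nonneg_left pe3 (by omega)
      _ = 4 * h * v (i + 1) * e := by ring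
      _ < v i := hb1
  have s2 : 4 * (v (i + 1) : ℤ) < v i := by
    calc 4 * (v (i + 1) : ℤ) = 4 * v (i + 1) * 1 := by ring
      _ ≤ 4 * v (i + 1) * (h * e) := mul_le_mul_of_nonneg_left pe1 (by omega)
      _ = 4 * h * v (i + 1) * e := by ring
      _ < v i := hb1
  have s3 : 4 * e < v i := by
    calc 4 * e = 4 * e * 1 := by ring
      _ ≤ 4 * e * (h * v (i + 1)) := mul_le_mul_of_nonneg_left pe2 (by omega)
      _ = 4 * h * v (i + 1) * e := by ring
      _ < v i := hb1
  have s4 : 4 * (v (i - 1) : ℤ) < v i := by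
    calc 4 * (v (i - 1) : ℤ) = 4 * v (i - 1) * 1 := by ring
      _ ≤ 4 * v (i - 1) * (h * e') := mul_le_mul_of_nonneg_left pe4 (by omega)
      _ = 4 * h * v (i - 1) * e' := by ring
      _ < v i := hb2
  have sqM : IsSquare ((v i : ℤ) * e + 1) := big_sq p1 hs0 hp0 hq0 hX0 hs hp hq hX hlin
  have sqh : IsSquare ((h : ℤ) * e + 1) := small_sq p1 hs0 hp0 hq0 hX0 hs hp hq hX hlin
  -- `e` as a natural number
  obtain ⟨E, rfl⟩ := Int.eq_ofNat_of_zero_le he0
  have d1 : E ≠ h := by
    rintro rfl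
    exact sq_add_one_ne hh sqh
  have d2 : E ≠ v (i + 1) := by
    rintro rfl
    exact sq_add_one_ne p1 ⟨X, by rw [← hX]; ring⟩
  have d3 : E ≠ v (i - 1) := by
    intro he
    apply P.not_adj' i
    rw [← he]
    exact ⟨X, by rw [← hX]; ring⟩
  have hM : 2 < v i := by omega
  have : NeZero (v i) := ⟨by omega⟩
  have m0 : h ∉ ({v (i + 1), E, v (i - 1)} : Finset ℕ) := by
    simp only [Finset.mem_insert, Finset.mem_singleton, not_or]
    exact ⟨fun he => P.hub_ne _ he.symm, fun he => d1 he.symm, fun he => P.hub_ne _ he.symm⟩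
  have m1 : v (i + 1) ∉ ({E, v (i - 1)} : Finset ℕ) := by
    simp only [Finset.mem_insert, Finset.mem_singleton, not_or]
    exact ⟨fun he => d2 he.symm, n3⟩
  have hcard : ({h, v (i + 1), E, v (i - 1)} : Finset ℕ).card = 4 := by
    rw [Finset.card_insert_of_notMem m0, Finset.card_insert_of_notMem m1, Finset.card_pair d3]
  have h1 := small_neighbours hM {h, v (i + 1), E, v (i - 1)} (by
    intro x hx
    simp only [Finset.mem_insert, Finset.mem_singleton] at hx
    rcases hx with rfl | rfl | rfl | rfl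
    · exact ⟨by omega, by omega, to_nat_sq (P.hub' i) (by push_cast; ring)⟩
    · exact ⟨by omega, by omega, P.rim_adj i⟩
    · exact ⟨by omega, by omega, to_nat_sq sqM (by push_cast; ring)⟩
    · exact ⟨by omega, by omega, to_nat_sq (P.rim_prev i) (by push_cast; ring)⟩)
  rw [hcard] at h1
  exact two_pow_sixteen (rootCount_eq_two_pow _) (by omega)

/-- **Square roots of `1` modulo the largest vertex of a Diophantine pyramid.** -/
theorem result (h : ℕ) (v : Fin 4 → ℕ) (P : IsPyramid h v) :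
    ((∀ i, v i < h) → 16 ≤ Nat.card {x : ZMod h // x ^ 2 = 1}) ∧
    ∀ i, h < v i → (∀ k, v k ≤ v i) →
      8 ≤ Nat.card {x : ZMod (v i) // x ^ 2 = 1} ∧
      ((∀ j, (j = i + 1 ∨ j = i - 1) → ∀ q, q ^ 2 = h * v j + 1 → v i ≠ h + v j + 2 * q) →
        16 ≤ Nat.card {x : ZMod (v i) // x ^ 2 = 1}) :=
  ⟨hub_case16 P, fun i hi hk => ⟨rim_case8 P i hi hk, rim_case16 P i hi hk⟩⟩

end Pool.Agent.Results.MP_6d8c3e_nt.RootsModLargest
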